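import Mathlib
import Pool.Agent.R492.Ladder.Space
import Pool.Agent.R492.Ladder.Lists

/-!
# A space on which both k-cover games are undetermined
-/

set_option autoImplicit false

namespace Pool.Agent.Results.MP_367a9a_gt.Undetermined

open Set Topology TopologicalSpace

/-- `𝒰` is a k-cover of `X`. -/
def KCover {X : Type} [TopologicalSpace X] (𝒰 : Set (Set X)) : Prop :=
  (∀ U ∈ 𝒰, IsOpen U) ∧ ⋃₀ 𝒰 = univ ∧ ∀ K : Set X, IsCompact K → ∃ U ∈ 𝒰, K ⊆ U

/-- The list `[a 0, …, a (n - 1)]`. -/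
def before {α : Type} (a : ℕ → α) (n : ℕ) : List α := (List.range n).map a

/-- P1 has a winning strategy in `G_1(K, K)`: a map `σ` from the finite sequences of P2's earlier moves to
k-covers, such that P1 wins every play in which P1 follows `σ`. -/
def P1WinsOne (X : Type) [TopologicalSpace X] : Prop :=
  ∃ σ : List (Set X) → Set (Set X), (∀ p, KCover (σ p)) ∧
    ∀ U : ℕ → Set X, (∀ n, U n ∈ σ (before U n)) → ¬ KCover (range U)

/-- P2 has a winning strategy in `G_1(K, K)`: a map `τ` from the finite sequences `[𝒰 0, …, 𝒰 n]` of P1's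
moves to an answer, such that for all k-covers `𝒰 n` played by P1 the answers of `τ` are legal and form a
k-cover. -/
def P2WinsOne (X : Type) [TopologicalSpace X] : Prop :=
  ∃ τ : List (Set (Set X)) → Set X, ∀ 𝒰 : ℕ → Set (Set X), (∀ n, KCover (𝒰 n)) →
    (∀ n, τ (before 𝒰 (n + 1)) ∈ 𝒰 n) ∧ KCover (range fun n => τ (before 𝒰 (n + 1)))

/-- P1 has a winning strategy in `G_fin(K, K)`. -/
def P1WinsFin (X : Type) [TopologicalSpace X] : Prop :=
  ∃ σ : List (Set (Set X)) → Set (Set X), (∀ p, KCover (σ p)) ∧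
    ∀ F : ℕ → Set (Set X), (∀ n, F n ⊆ σ (before F n) ∧ (F n).Finite) → ¬ KCover (⋃ n, F n)

/-- P2 has a winning strategy in `G_fin(K, K)`. -/
def P2WinsFin (X : Type) [TopologicalSpace X] : Prop :=
  ∃ τ : List (Set (Set X)) → Set (Set X), ∀ 𝒰 : ℕ → Set (Set X), (∀ n, KCover (𝒰 n)) →
    (∀ n, τ (before 𝒰 (n + 1)) ⊆ 𝒰 n ∧ (τ (before 𝒰 (n + 1))).Finite) ∧
      KCover (⋃ n, τ (before 𝒰 (n + 1)))

/-- `G_1(K, K)` is undetermined on `X`. -/
def UndeterminedOne (X : Type) [TopologicalSpace X] : Prop := ¬ P1WinsOne X ∧ ¬ P2WinsOne X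

/-- `G_fin(K, K)` is undetermined on `X`. -/
def UndeterminedFin (X : Type) [TopologicalSpace X] : Prop := ¬ P1WinsFin X ∧ ¬ P2WinsFin X

theorem p1_fin_one {X : Type} [TopologicalSpace X] (h : P1WinsFin X) : P1WinsOne X := by
  obtain ⟨σ, hσ1, hσ2⟩ := h
  refine ⟨fun p => σ (p.map fun U => {U}), fun p => hσ1 _, fun U hU hK => ?_⟩
  refine hσ2 (fun n => {U n}) (fun n => ⟨?_, finite_singleton _⟩) ?_
  · rw [singleton_subset_iff]
    have := hU n
    unfold before at this ⊢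
    simp only [List.map_map] at this
    exact this
  · rw [iUnion_singleton_eq_range]
    exact hK

theorem p2_one_fin {X : Type} [TopologicalSpace X] (h : P2WinsOne X) : P2WinsFin X := by
  obtain ⟨τ, hτ⟩ := h
  refine ⟨fun L => {τ L}, fun 𝒰 h𝒰 => ⟨fun n => ⟨?_, finite_singleton _⟩, ?_⟩⟩
  · rw [singleton_subset_iff]
    exact (hτ 𝒰 h𝒰).1 n
  · rw [iUnion_singleton_eq_range]
    exact (hτ 𝒰 h𝒰).2

open Pool.Agent.R492.Ladder

variable {W : Type} [LinearOrder W] (D : Data W)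

theorem not_p1WinsOne (hE : Pool.Agent.H748R3.Stat (D.E)ᶜ) : ¬ P1WinsOne (Sp D) := by
  rintro ⟨σ, hσ1, hσ2⟩
  obtain ⟨U, hU, hcov⟩ := catchAll D hE σ (fun p => (hσ1 p).1)
    (fun p K hK => (hσ1 p).2.2 K hK.isCompact)
  refine hσ2 U hU ⟨?_, ?_, ?_⟩
  · rintro _ ⟨n, rfl⟩
    exact (hσ1 _).1 _ (hU n)
  · rw [eq_univ_iff_forall]
    intro x
    obtain ⟨n, hn⟩ := hcov {x} (finite_singleton x)
    exact ⟨U n, ⟨n, rfl⟩, hn rfl⟩
  · intro K hK
    obtain ⟨n, hn⟩ := hcov K (finite_of_compact D K hK)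
    exact ⟨U n, ⟨n, rfl⟩, hn⟩

/-- The k-cover by the finite unions of cells of level `α`. -/
def fcells (α : W) : Set (Set (Sp D)) := {U | ∃ F : Set (Sp D), F.Finite ∧ U = ⋃ x ∈ F, cell D x α}

theorem kCover_fcells (α : W) : KCover (fcells D α) := by
  refine ⟨?_, ?_, ?_⟩
  · rintro _ ⟨F, -, rfl⟩
    exact isOpen_biUnion fun x _ => isOpen_cell D x α
  · rw [eq_univ_iff_forall]
    intro x
    exact ⟨_, ⟨{x}, finite_singleton x, rfl⟩, mem_iUnion₂.mpr ⟨x, rfl, mem_cell_self D x α⟩⟩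
  · intro K hK
    exact ⟨_, ⟨K, finite_of_compact D K hK, rfl⟩, fun x hx =>
      mem_iUnion₂.mpr ⟨x, hx, mem_cell_self D x α⟩⟩

theorem not_p2WinsFin (hE : Pool.Agent.H748R3.Stat D.E) : ¬ P2WinsFin (Sp D) := by
  rintro ⟨σ, hσ⟩
  obtain ⟨α, x, hx⟩ := avoid D hE (fun s => ⋃₀ σ (s.map (fcells D))) (by
    intro s α
    have h1 := (hσ (fun k => fcells D ((s ++ [α]).getD k α)) (fun n => kCover_fcells D _)).1
      s.length
    have h2 : before (fun k => fcells D ((s ++ [α]).getD k α)) (s.length + 1) =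
        (s ++ [α]).map (fcells D) := by
      conv_rhs => rw [← getD_segment s α α]
      rw [List.map_map]
      rfl
    rw [h2] at h1
    apply trace_sUnion_finite _ _ h1.2
    intro U hU
    have h3 := h1.1 hU
    have h4 : (s ++ [α]).getD s.length α = α := by simp
    rw [h4] at h3
    obtain ⟨F, hF, rfl⟩ := h3
    refine (hF.image fun z : Sp D => z.1 ∩ Iio α).subset ?_
    rintro _ ⟨y, hy, rfl⟩
    obtain ⟨z, hz, hyz⟩ := mem_iUnion₂.mp hy
    exact ⟨z, hz, hyz.symm⟩)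
  have h := (hσ (fun n => fcells D (α n)) (fun n => kCover_fcells D _)).2.2.1
  have hxu : x ∈ ⋃₀ (⋃ n, σ (before (fun n => fcells D (α n)) (n + 1))) := by
    rw [h]; exact mem_univ _
  obtain ⟨U, hU, hxU⟩ := hxu
  obtain ⟨n, hn⟩ := mem_iUnion.mp hU
  apply hx n
  refine ⟨U, ?_, hxU⟩
  rw [List.map_map]
  exact hn

/-- **Answer to Q1 and Q2.** There is a space `X` (Hausdorff, with a base of clopen sets) for which both
`G_1(K_X, K_X)` and `G_fin(K_X, K_X)` are undetermined. -/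
theorem result : ∃ (X : Type) (_ : TopologicalSpace X), T2Space X ∧
    IsTopologicalBasis {s : Set X | IsClopen s} ∧ UndeterminedOne X ∧ UndeterminedFin X := by
  obtain ⟨W, _, D, hE, hE'⟩ := exists_data
  have h1 := not_p1WinsOne D hE'
  have h2 := not_p2WinsFin D hE
  exact ⟨Sp D, inferInstance, inferInstance, basis_clopen D, ⟨h1, fun h => h2 (p2_one_fin h)⟩,
    ⟨fun h => h1 (p1_fin_one h), h2⟩⟩

end Pool.Agent.Results.MP_367a9a_gt.Undetermined
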